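import Pool.Agent.K9h4.PF.Main

/-!
# The balanced parenthesis strings are not in 2-PFA

Proof outline.  (1) For every 2-PFA `M` the acceptance probability of `w` is `A(w) / Z(w)` for two
nonnegative rational series `A ≤ Z`, `Z > 0` (forest formula for absorbing chains, summed over all
closed sets of killed configurations, computed by transfer matrices over the columns of the tape).
(2) On the words `[^{NH} X Y_{D1} … Y_{Dk} X ]^{NH}`, with `Y_D` a block that goes down by `ND`
and comes back, the supports of the matrices do not depend on `D` and `H`; Perron-Frobenius theory
for the support-idempotent matrix `X` and a pigeonhole argument on the dominant classes give
`D < H < D'` and one nonnegative vector for which both the acceptance and the rejection inequalities hold.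
-/

set_option autoImplicit false

namespace Pool.Agent.Results.MP_44310b_lc.BalancedNotTwoPFA

open K9h4.PF

/-- No two-way probabilistic finite automaton (even with real transition probabilities) accepts
the language of balanced parenthesis strings with bounded error. -/
theorem result : Lbal ∉ TwoPFA := lbal_not_mem

end Pool.Agent.Results.MP_44310b_lc.BalancedNotTwoPFA
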